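import Pool.Agent.H.MP_8d5706_al.E

set_option autoImplicit false

namespace Pool.Agent.Results.MP_8d5706_al.Functor

universe u

/-- simplicial monoid with a distinguished order-unit -/
def Simp (M : Type u) [AddCommMonoid M] (u : M) : Prop :=
  (∃ n : ℕ, Nonempty (M ≃+ (Fin n → ℕ))) ∧ ∀ x : M, ∃ (y : M) (m : ℕ), x + y = m • u

open Pool.Agent.H.MP_8d5706_al in
theorem result :
    ∃ (Ψ : ∀ (M : Type u) [AddCommMonoid M] (u : M), Simp M u → Type u)
      (_ : ∀ (M : Type u) [AddCommMonoid M] (u : M) (h : Simp M u), Ring (Ψ M u h))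
      (F : ∀ (M N : Type u) [AddCommMonoid M] [AddCommMonoid N] (u : M) (v : N) (hM : Simp M u)
        (hN : Simp N v) (f : M →+ N), Function.Injective f → f u = v → (Ψ M u hM →+* Ψ N v hN))
      (φ : ∀ (M : Type u) [AddCommMonoid M] (u : M) (h : Simp M u) (k : ℕ),
        Matrix (Fin k) (Fin k) (Ψ M u h) → M),
      (∀ (M : Type u) [AddCommMonoid M] (u : M) (h : Simp M u),
        F M M u u h h (AddMonoidHom.id M) Function.injective_id rfl = RingHom.id (Ψ M u h)) ∧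
      (∀ (M N P : Type u) [AddCommMonoid M] [AddCommMonoid N] [AddCommMonoid P] (u : M) (v : N)
        (w : P) (hM : Simp M u) (hN : Simp N v) (hP : Simp P w) (f : M →+ N) (g : N →+ P)
        (hf : Function.Injective f) (hg : Function.Injective g) (fu : f u = v) (gv : g v = w),
        F M P u w hM hP (g.comp f) (hg.comp hf) ((congrArg g fu).trans gv) =
          (F N P v w hN hP g hg gv).comp (F M N u v hM hN f hf fu)) ∧
      (∀ (M : Type u) [AddCommMonoid M] (u : M) (h : Simp M u),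
        (∀ x : Ψ M u h, ∃ e : Ψ M u h, e * e = e ∧ (∃ a, e = x * a) ∧ ∃ b, 1 - e = (1 - x) * b) ∧
        (∀ (k l : ℕ) (p : Matrix (Fin k) (Fin k) (Ψ M u h)) (q : Matrix (Fin l) (Fin l) (Ψ M u h)),
          p * p = p → q * q = q →
          (φ M u h k p = φ M u h l q ↔ ∃ (x : Matrix (Fin k) (Fin l) (Ψ M u h))
            (y : Matrix (Fin l) (Fin k) (Ψ M u h)), p = x * y ∧ q = y * x) ∧
          φ M u h (k + l) (Matrix.reindex finSumFinEquiv finSumFinEquiv (Matrix.fromBlocks p 0 0 q))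
            = φ M u h k p + φ M u h l q) ∧
        (∀ k : ℕ, φ M u h k 0 = 0) ∧
        ∀ z : M, ∃ (k : ℕ) (p : Matrix (Fin k) (Fin k) (Ψ M u h)), p * p = p ∧ φ M u h k p = z) ∧
      ∀ (M N : Type u) [AddCommMonoid M] [AddCommMonoid N] (u : M) (v : N) (hM : Simp M u)
        (hN : Simp N v) (f : M →+ N) (hf : Function.Injective f) (fu : f u = v) (k : ℕ)
        (p : Matrix (Fin k) (Fin k) (Ψ M u hM)), p * p = p →
          φ N v hN k (p.map (F M N u v hM hN f hf fu)) = f (φ M u hM k p) := by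
  refine ⟨fun M _ u _ => Ψ u, fun M _ u _ => inferInstance,
    fun M N _ _ u v _ hN f hf fu => Fm f hf fu (pos_of hN.2), fun M _ u _ k p => φ p,
    fun M _ u h => Fm_id _ _, fun M N P _ _ _ u v w _ _ _ f g hf hg fu gv =>
      Fm_comp f g hf hg fu gv _ _ _ _, ?_, ?_⟩
  · rintro M _ u ⟨⟨n, ⟨e⟩⟩, hu⟩
    have H := ok_of e hu
    refine ⟨exch e H, fun k l p q hp hq => ⟨⟨fun h => ?_, ?_⟩, φ_eq e fun r => ?_⟩,
      fun k => φ_eq e fun r => by simp [τ], φ_surj e H⟩
    · obtain ⟨x, y, a, b⟩ := eqv H hp hq fun r => by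
        rw [φ_spec e hp, φ_spec e hq]; exact congrArg (fun x => (r x : K M)) h
      exact ⟨x, y, a.symm, b.symm⟩
    · rintro ⟨x, y, a, b⟩
      exact φ_eq e fun r => by rw [← φ_spec e hq, a, b, τ_comm]
    · rw [τ_blk, φ_spec e hp, φ_spec e hq, map_add, Nat.cast_add]
  · rintro M N _ _ u v ⟨⟨n, ⟨e⟩⟩, hu⟩ ⟨⟨m, ⟨e'⟩⟩, hv⟩ f hf fu k p hp
    exact φ_eq e' fun r => by rw [τ_Fm, φ_spec e hp, map_natCast]; rfl

end Pool.Agent.Results.MP_8d5706_al.Functor
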